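import Pool.Agent.Lib.MP_b525bf_ag.Good

/-!
Finite generation of graded algebras attached to multiplicative families.
-/

namespace Pool.Agent.MP_b525bf_ag

open AddMonoidAlgebra

variable {k K ι ι' : Type} [Field k] [Field K] [Algebra k K] [AddCommGroup ι] [AddCommGroup ι']

namespace Fam

omit [AddCommGroup ι] in
lemma sum_single_coeff (F : AddMonoidAlgebra K ι) :
    ∑ a ∈ F.coeff.support, (single a (F.coeff a) : AddMonoidAlgebra K ι) = F := by
  apply AddMonoidAlgebra.ext
  rw [coeff_sum]
  simp only [coeff_single]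
  exact Finsupp.sum_single F.coeff

lemma mem_of_coeff {B : Subalgebra k (AddMonoidAlgebra K ι)} {F : AddMonoidAlgebra K ι}
    (h : ∀ a, (single a (F.coeff a) : AddMonoidAlgebra K ι) ∈ B) : F ∈ B := by
  rw [← sum_single_coeff F]
  exact Subalgebra.sum_mem _ fun a _ => h a

lemma alg_le {M : Fam k K ι} {B : Subalgebra k (AddMonoidAlgebra K ι)}
    (h : ∀ a, ∀ x ∈ M.s a, (single a x : AddMonoidAlgebra K ι) ∈ B) : M.alg ≤ B :=
  fun F hF => mem_of_coeff fun a => h a _ (hF a)

lemma ofSub_alg_le (B : Subalgebra k (AddMonoidAlgebra K ι)) : (ofSub B).alg ≤ B :=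
  alg_le fun _ _ hx => hx

lemma ofSub_adjoin_alg (S : Set (AddMonoidAlgebra K ι))
    (hS : ∀ F ∈ S, ∃ a x, F = single a x) :
    (ofSub (Algebra.adjoin k S)).alg = Algebra.adjoin k S := by
  apply le_antisymm (ofSub_alg_le _)
  rw [Algebra.adjoin_le_iff]
  intro F hF
  obtain ⟨a, x, rfl⟩ := hS F hF
  exact single_mem_alg.2 (mem_ofSub.2 (Algebra.subset_adjoin hF))

/-- The family of spans of monomials in the homogeneous elements `x i T ^ (a i)`. -/
def mon {r : ℕ} (a : Fin r → ι) (x : Fin r → K) : Fam k K ι where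
  s b := Submodule.span k {z | ∃ α : Fin r → ℕ, ∑ i, α i • a i = b ∧ z = ∏ i, x i ^ α i}
  one' := Submodule.subset_span ⟨0, by simp, by simp⟩
  mul' := by
    intro b c y z hy hz
    have h := Submodule.mul_mem_mul hy hz
    rw [Submodule.span_mul_span] at h
    refine Submodule.span_mono ?_ h
    rintro _ ⟨u, ⟨α, h1, rfl⟩, v, ⟨β, h2, rfl⟩, rfl⟩
    refine ⟨α + β, ?_, ?_⟩
    · simp only [Pi.add_apply, add_nsmul, Finset.sum_add_distrib, h1, h2]
    · simp only [Pi.add_apply, pow_add, Finset.prod_mul_distrib]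

/-- Homogeneous generators of a finitely generated graded algebra. -/
lemma exists_gens (M : Fam k K ι) (h : M.alg.FG) :
    ∃ (r : ℕ) (a : Fin r → ι) (x : Fin r → K), (∀ i, x i ∈ M.s (a i)) ∧
      M.alg = Algebra.adjoin k (Set.range fun i => (single (a i) (x i) : AddMonoidAlgebra K ι)) := by
  classical
  obtain ⟨S, hS⟩ := h
  let T : Finset (ι × K) := S.biUnion fun F => F.coeff.support.image fun a => (a, F.coeff a)
  let e : Fin T.card ≃ T := T.equivFin.symm
  have hT : ∀ q ∈ T, q.2 ∈ M.s q.1 := by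
    intro q hq
    simp only [T, Finset.mem_biUnion, Finset.mem_image] at hq
    obtain ⟨F, hF, b, -, rfl⟩ := hq
    have : F ∈ M.alg := hS ▸ Algebra.subset_adjoin hF
    exact this b
  refine ⟨T.card, fun i => (e i).1.1, fun i => (e i).1.2, fun i => hT _ (e i).2, ?_⟩
  apply le_antisymm
  · rw [← hS, Algebra.adjoin_le_iff]
    intro F hF
    rw [SetLike.mem_coe, ← sum_single_coeff F]
    refine Subalgebra.sum_mem _ fun b hb => Algebra.subset_adjoin ?_
    have hbT : (b, F.coeff b) ∈ T := by
      simp only [T, Finset.mem_biUnion, Finset.mem_image]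
      exact ⟨F, hF, b, hb, rfl⟩
    exact ⟨e.symm ⟨_, hbT⟩, by simp⟩
  · rw [Algebra.adjoin_le_iff]
    rintro _ ⟨i, rfl⟩
    exact single_mem_alg.2 (hT _ (e i).2)

lemma s_le_mon (M : Fam k K ι) {r : ℕ} {a : Fin r → ι} {x : Fin r → K}
    (hM : M.alg = Algebra.adjoin k
      (Set.range fun i => (single (a i) (x i) : AddMonoidAlgebra K ι))) (b : ι) :
    M.s b ≤ (mon a x : Fam k K ι).s b := by
  classical
  have h : M.alg ≤ (mon a x : Fam k K ι).alg := by
    rw [hM, Algebra.adjoin_le_iff]
    rintro _ ⟨i, rfl⟩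
    refine single_mem_alg.2 (Submodule.subset_span ⟨Pi.single i 1, ?_, ?_⟩)
    · rw [Finset.sum_eq_single i] <;> simp +contextual
    · rw [Finset.prod_eq_single i] <;> simp +contextual
  intro z hz
  exact single_mem_alg.1 (h (single_mem_alg.2 hz))

lemma prod_mem {M : Fam k K ι} {r : ℕ} {a : Fin r → ι} {x : Fin r → K}
    (hx : ∀ i, x i ∈ M.s (a i)) (α : Fin r → ℕ) : ∏ i, x i ^ α i ∈ M.s (∑ i, α i • a i) := by
  classical
  have : ∀ s : Finset (Fin r), ∏ i ∈ s, x i ^ α i ∈ M.s (∑ i ∈ s, α i • a i) := by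
    intro s
    induction s using Finset.induction_on with
    | empty => simpa using M.one'
    | insert i s hi ih =>
      rw [Finset.prod_insert hi, Finset.sum_insert hi]
      exact M.mul' (M.pow' (hx i) _) ih
  exact this _

lemma prod_single {r : ℕ} (a : Fin r → ι) (x : Fin r → K) (α : Fin r → ℕ) :
    ∏ i, (single (a i) (x i) : AddMonoidAlgebra K ι) ^ α i =
      single (∑ i, α i • a i) (∏ i, x i ^ α i) := by
  classical
  have : ∀ s : Finset (Fin r), ∏ i ∈ s, (single (a i) (x i) : AddMonoidAlgebra K ι) ^ α i =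
      single (∑ i ∈ s, α i • a i) (∏ i ∈ s, x i ^ α i) := by
    intro s
    induction s using Finset.induction_on with
    | empty => simp [AddMonoidAlgebra.one_def]
    | insert i s hi ih =>
      rw [Finset.prod_insert hi, Finset.sum_insert hi, Finset.prod_insert hi, ih,
        AddMonoidAlgebra.single_pow, AddMonoidAlgebra.single_mul_single]
  exact this _

/-- A subalgebra of `K[ι]` spanned by homogeneous elements contains the algebra of `M` as soon as
it contains all monomials. -/
lemma single_mem_of_mon {B : Subalgebra k (AddMonoidAlgebra K ι')} {r : ℕ} {a : Fin r → ι}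
    {x : Fin r → K} {b : ι} {b' : ι'} {z : K} (hz : z ∈ (mon a x : Fam k K ι).s b)
    (h : ∀ α : Fin r → ℕ, ∑ i, α i • a i = b →
      (single b' (∏ i, x i ^ α i) : AddMonoidAlgebra K ι') ∈ B) :
    (single b' z : AddMonoidAlgebra K ι') ∈ B := by
  have : (mon a x : Fam k K ι).s b ≤ (ofSub B).s b' := by
    refine Submodule.span_le.2 ?_
    rintro _ ⟨α, hα, rfl⟩
    exact h α hα
  exact this hz

theorem fg_comap (f : ι' →+ ι) (hf : Function.Injective f) (M : Fam k K ι) (h : M.alg.FG) :
    (M.comap f).alg.FG := by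
  classical
  obtain ⟨r, a, x, hx, hM⟩ := M.exists_gens h
  let φ : (Fin r → ℕ) →+ ι :=
    { toFun := fun α => ∑ i, α i • a i
      map_zero' := by simp
      map_add' := by
        intro α β
        simp only [Pi.add_apply, add_nsmul, Finset.sum_add_distrib] }
  let P : AddSubmonoid (Fin r → ℕ) := (AddMonoidHom.range f).toAddSubmonoid.comap φ
  have hP : P.FG := by
    apply AddSubmonoid.fg_of_subtractive
    intro α hα β hαβ
    simp only [P, AddSubmonoid.mem_comap, AddSubgroup.mem_toAddSubmonoid, map_add] at *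
    have := AddSubgroup.sub_mem _ hαβ hα
    simpa using this
  obtain ⟨S, hS⟩ := hP
  have hSP : ∀ α ∈ S, ∃ b' : ι', f b' = φ α := fun α hα => by
    have : α ∈ P := hS ▸ AddSubmonoid.subset_closure hα
    exact this
  choose! b hb using hSP
  refine ⟨S.image fun α => single (b α) (∏ i, x i ^ α i), ?_⟩
  apply le_antisymm
  · rw [Algebra.adjoin_le_iff]
    intro F hF
    simp only [Finset.coe_image, Set.mem_image] at hF
    obtain ⟨α, hα, rfl⟩ := hF
    refine single_mem_alg.2 ?_
    rw [comap_s, hb α hα]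
    exact prod_mem hx α
  · apply alg_le
    intro b' z hz
    rw [comap_s] at hz
    refine single_mem_of_mon (M.s_le_mon hM _ hz) ?_
    intro α hα
    have hαP : α ∈ AddSubmonoid.closure (S : Set (Fin r → ℕ)) := by
      rw [hS]; exact ⟨b', hα.symm⟩
    have key : ∀ α ∈ AddSubmonoid.closure (S : Set (Fin r → ℕ)), ∃ c : ι', f c = φ α ∧
        (single c (∏ i, x i ^ α i) : AddMonoidAlgebra K ι') ∈
          Algebra.adjoin k ((S.image fun α => (single (b α) (∏ i, x i ^ α i) :
            AddMonoidAlgebra K ι') : Finset _) : Set (AddMonoidAlgebra K ι')) := by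
      intro α hα
      induction hα using AddSubmonoid.closure_induction with
      | mem α hα =>
        exact ⟨b α, hb α hα, Algebra.subset_adjoin (by
          simp only [Finset.coe_image, Set.mem_image]
          exact ⟨α, hα, rfl⟩)⟩
      | zero =>
        refine ⟨0, by simp, ?_⟩
        have h1 : (single (0 : ι') (∏ i, x i ^ (0 : Fin r → ℕ) i) : AddMonoidAlgebra K ι') = 1 := by
          simp [AddMonoidAlgebra.one_def]
        rw [h1]
        exact one_mem _
      | add α β _ _ h1 h2 =>
        obtain ⟨c, hc, hc'⟩ := h1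
        obtain ⟨d, hd, hd'⟩ := h2
        refine ⟨c + d, by rw [map_add, map_add, hc, hd], ?_⟩
        have := Subalgebra.mul_mem _ hc' hd'
        rw [AddMonoidAlgebra.single_mul_single] at this
        simpa only [Pi.add_apply, pow_add, Finset.prod_mul_distrib] using this
    obtain ⟨c, hc, hc'⟩ := key α hαP
    have : c = b' := hf (by rw [hc]; exact hα)
    rw [← this]
    exact hc'

theorem fg_wrees (M : Fam k K ℤ) (w : ℕ) (hw : 0 < w) (hfg : M.alg.FG) :
    (M.wrees w).alg.FG := by
  classical
  obtain ⟨r, a, x, hx, hM⟩ := M.exists_gens hfg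
  have hwZ : (0 : ℤ) < w := by exact_mod_cast hw
  have h1 : (M.wrees w).alg = Algebra.adjoin k (M.wgens w) := by
    apply ofSub_adjoin_alg
    rintro F (⟨d, x, -, rfl⟩ | hF)
    · exact ⟨_, _, rfl⟩
    · exact ⟨_, _, hF⟩
  rw [h1]
  let G : Finset (AddMonoidAlgebra K (ℤ × ℤ)) :=
    insert (single (-(w : ℤ), 1) 1) (Finset.univ.image fun i => single (a i % w, a i / w) (x i))
  refine ⟨G, ?_⟩
  apply le_antisymm
  · rw [Algebra.adjoin_le_iff]
    intro F hF
    simp only [G, Finset.coe_insert, Finset.coe_image, Set.mem_insert_iff, Set.mem_image] at hF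
    rcases hF with rfl | ⟨i, -, rfl⟩
    · exact Algebra.subset_adjoin (Or.inr rfl)
    · exact Algebra.subset_adjoin (Or.inl ⟨a i, x i, hx i, rfl⟩)
  · rw [Algebra.adjoin_le_iff]
    rintro F (⟨d, z, hz, rfl⟩ | hF)
    · refine single_mem_of_mon (M.s_le_mon hM _ hz) ?_
      intro α hα
      have hgen : ∀ i, (single (a i % w, a i / w) (x i) : AddMonoidAlgebra K (ℤ × ℤ)) ∈
          Algebra.adjoin k (G : Set (AddMonoidAlgebra K (ℤ × ℤ))) := by
        intro i
        apply Algebra.subset_adjoin
        simp only [G, Finset.coe_insert, Finset.coe_image, Set.mem_insert_iff, Set.mem_image]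
        exact Or.inr ⟨i, by simp, rfl⟩
      have hs : (single (-(w : ℤ), 1) 1 : AddMonoidAlgebra K (ℤ × ℤ)) ∈
          Algebra.adjoin k (G : Set (AddMonoidAlgebra K (ℤ × ℤ))) := by
        apply Algebra.subset_adjoin
        simp [G]
      have hprod : ∏ i, (single (a i % w, a i / w) (x i) : AddMonoidAlgebra K (ℤ × ℤ)) ^ α i ∈
          Algebra.adjoin k (G : Set (AddMonoidAlgebra K (ℤ × ℤ))) :=
        Subalgebra.prod_mem _ fun i _ => Subalgebra.pow_mem _ (hgen i) _
      rw [prod_single] at hprod
      set V : ℤ := ∑ i, (α i : ℤ) * (a i % w) with hV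
      set W : ℤ := ∑ i, (α i : ℤ) * (a i / w) with hW
      have hsum : ∑ i, α i • ((a i % w, a i / w) : ℤ × ℤ) = (V, W) := by
        rw [Prod.ext_iff]
        simp [hV, hW, Prod.fst_sum, Prod.snd_sum]
      rw [hsum] at hprod
      have hVnn : 0 ≤ V := Finset.sum_nonneg fun i _ =>
        mul_nonneg (by positivity) (Int.emod_nonneg _ hwZ.ne')
      have hd : d = V + w * W := by
        rw [← hα, hV, hW, Finset.mul_sum, ← Finset.sum_add_distrib]
        refine Finset.sum_congr rfl fun i _ => ?_
        rw [nsmul_eq_mul]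
        have := Int.emod_add_mul_ediv (a i) w
        nth_rewrite 1 [← this]
        ring
      have h2 := Subalgebra.mul_mem _ hprod (Subalgebra.pow_mem _ hs (V / w).toNat)
      rw [AddMonoidAlgebra.single_pow, AddMonoidAlgebra.single_mul_single, one_pow, mul_one] at h2
      have h3 : ((V, W) : ℤ × ℤ) + (V / w).toNat • ((-(w : ℤ), 1) : ℤ × ℤ) = (d % w, d / w) := by
        have h4 : (((V / w).toNat : ℕ) : ℤ) = V / w := Int.toNat_of_nonneg
          (Int.ediv_nonneg hVnn hwZ.le)
        rw [Prod.ext_iff]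
        constructor
        · change V + (V / w).toNat • (-(w : ℤ)) = d % w
          rw [nsmul_eq_mul, h4, hd, Int.add_mul_emod_self_left]
          have := Int.emod_add_mul_ediv V w
          linarith
        · change W + (V / w).toNat • (1 : ℤ) = d / w
          rw [nsmul_eq_mul, h4, hd, Int.add_mul_ediv_left _ _ hwZ.ne']
          ring
      rw [h3] at h2
      exact h2
    · rw [Set.mem_singleton_iff] at hF
      rw [hF]
      apply Algebra.subset_adjoin
      simp [G]

theorem finiteType_rees {k A K : Type} [Field k] [CommRing A] [IsDomain A] [Algebra k A]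
    [Field K] [Algebra A K] [Algebra k K] [IsScalarTower k A K]
    (hinj : Function.Injective (algebraMap A K)) (M : Fam k K ℤ) (h : M.alg.FG)
    (F : IdealFam A) (hF : ∀ (n : ℕ) (x : A), x ∈ F.I n ↔ algebraMap A K x ∈ M.s n)
    (hM : ∀ (n : ℕ) (z : K), z ∈ M.s n → ∃ x : A, algebraMap A K x = z) :
    Algebra.FiniteType k F.rees := by
  classical
  obtain ⟨r, a, x, hx, hMg⟩ := M.exists_gens h
  let φ : (Fin r → ℕ) →+ ℤ :=
    { toFun := fun α => ∑ i, α i • a i
      map_zero' := by simp
      map_add' := by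
        intro α β
        simp only [Pi.add_apply, add_nsmul, Finset.sum_add_distrib] }
  have hWQO : WellQuasiOrderedLE ((Fin r → ℕ) × ℕ) := inferInstance
  let P : AddSubmonoid ((Fin r → ℕ) × ℕ) :=
    { carrier := {q | φ q.1 = q.2}
      zero_mem' := by simp
      add_mem' := by
        intro q q' h1 h2
        simp only [Set.mem_ofPred_eq] at *
        rw [Prod.fst_add, Prod.snd_add, map_add, h1, h2]; push_cast; rfl }
  have hPm : ∀ q, q ∈ P ↔ φ q.1 = q.2 := fun q => Iff.rfl
  have hP : P.FG := by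
    apply AddSubmonoid.fg_of_subtractive
    intro q hq q' hqq'
    rw [hPm] at *
    rw [Prod.fst_add, Prod.snd_add, map_add, hq] at hqq'
    push_cast at hqq'
    linarith
  obtain ⟨S, hS⟩ := hP
  -- the elements of `A` attached to the elements of `P`
  have hlift : ∀ q ∈ P, ∃ y : A, algebraMap A K y = ∏ i, x i ^ q.1 i ∧ y ∈ F.I q.2 := by
    intro q hq
    have h1 := prod_mem hx q.1
    rw [show ∑ i, q.1 i • a i = φ q.1 from rfl, (hPm q).1 hq] at h1
    obtain ⟨y, hy⟩ := hM _ _ h1
    exact ⟨y, hy, (hF _ _).2 (by rw [hy]; exact h1)⟩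
  choose! y hy hyI using hlift
  have hmem : ∀ q ∈ P, Polynomial.monomial q.2 (y q) ∈ F.rees := by
    intro q hq n
    rw [Polynomial.coeff_monomial]
    split_ifs with h1
    · rw [← h1]; exact hyI q hq
    · exact Ideal.zero_mem _
  let g : P → F.rees := fun q => ⟨_, hmem q.1 q.2⟩
  let B : Subalgebra k F.rees :=
    Algebra.adjoin k (g '' {q | q.1 ∈ S})
  -- all monomials lie in `B`
  have hkey : ∀ q ∈ AddSubmonoid.closure (S : Set ((Fin r → ℕ) × ℕ)), ∀ hq : q ∈ P,
      g ⟨q, hq⟩ ∈ B := by
    intro q hq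
    induction hq using AddSubmonoid.closure_induction with
    | mem q hq =>
      intro hqP
      exact Algebra.subset_adjoin ⟨⟨q, hqP⟩, hq, rfl⟩
    | zero =>
      intro hqP
      have h1 : g ⟨0, hqP⟩ = 1 := by
        apply Subtype.ext
        have h2 : y 0 = 1 := hinj (by rw [hy 0 hqP]; simp)
        simp [g, h2]
      rw [h1]; exact one_mem _
    | add q q' hqc hqc' h1 h2 =>
      intro hqP
      have hq1 : q ∈ P := by rw [← hS]; exact hqc
      have hq2 : q' ∈ P := by rw [← hS]; exact hqc'
      have h3 : g ⟨q + q', hqP⟩ = g ⟨q, hq1⟩ * g ⟨q', hq2⟩ := by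
        apply Subtype.ext
        have h4 : y (q + q') = y q * y q' := hinj (by
          rw [hy _ hqP, map_mul, hy _ hq1, hy _ hq2]
          simp only [Prod.fst_add, Pi.add_apply, pow_add, Finset.prod_mul_distrib])
        simp [g, h4, Polynomial.monomial_mul_monomial]
      rw [h3]
      exact mul_mem (h1 hq1) (h2 hq2)
  -- homogeneous elements
  have hhom : ∀ (n : ℕ) (z : A) (hz : Polynomial.monomial n z ∈ F.rees),
      (⟨_, hz⟩ : F.rees) ∈ B := by
    intro n z hz
    have hzI : z ∈ F.I n := by simpa using hz n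
    have hzK := s_le_mon M hMg _ ((hF n z).1 hzI)
    -- induction on the span
    have hspan : ∀ u ∈ (mon a x : Fam k K ℤ).s n, ∃ v : A, algebraMap A K v = u ∧
        ∃ hv : Polynomial.monomial n v ∈ F.rees, (⟨_, hv⟩ : F.rees) ∈ B := by
      intro u hu
      induction hu using Submodule.span_induction with
      | mem u hu =>
        obtain ⟨α, hα, rfl⟩ := hu
        have hq : ((α, n) : (Fin r → ℕ) × ℕ) ∈ P := hα
        exact ⟨y (α, n), hy _ hq, hmem _ hq, hkey _ (hS ▸ hq) hq⟩
      | zero =>
        refine ⟨0, by simp, by simp, ?_⟩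
        have : (⟨Polynomial.monomial n (0 : A), by simp⟩ : F.rees) = 0 := by
          apply Subtype.ext; simp
        rw [this]; exact zero_mem _
      | add u u' _ _ h1 h2 =>
        obtain ⟨v, hv, hv1, hv2⟩ := h1
        obtain ⟨v', hv', hv1', hv2'⟩ := h2
        have h5 : Polynomial.monomial n (v + v') = Polynomial.monomial n v +
          Polynomial.monomial n v' := by simp
        refine ⟨v + v', by rw [map_add, hv, hv'], by rw [h5]; exact add_mem hv1 hv1', ?_⟩
        have : (⟨Polynomial.monomial n (v + v'), by rw [h5]; exact add_mem hv1 hv1'⟩ : F.rees) =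
            ⟨_, hv1⟩ + ⟨_, hv1'⟩ := by
          apply Subtype.ext; simp
        rw [this]; exact add_mem hv2 hv2'
      | smul c u _ h1 =>
        obtain ⟨v, hv, hv1, hv2⟩ := h1
        have h5 : Polynomial.monomial n (c • v) = c • Polynomial.monomial n v := by
          rw [Polynomial.smul_monomial]
        have h6 : Polynomial.monomial n (c • v) ∈ F.rees := by
          have : c • (⟨_, hv1⟩ : F.rees) = ⟨c • Polynomial.monomial n v,
            (c • (⟨_, hv1⟩ : F.rees)).2⟩ := rfl
          rw [h5]; exact (c • (⟨_, hv1⟩ : F.rees)).2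
        refine ⟨c • v, by rw [algebra_compatible_smul A c v, smul_eq_mul, map_mul, hv,
          ← IsScalarTower.algebraMap_apply, Algebra.smul_def], h6, ?_⟩
        have : (⟨Polynomial.monomial n (c • v), h6⟩ : F.rees) = c • ⟨_, hv1⟩ := by
          apply Subtype.ext
          exact h5
        rw [this]; exact Subalgebra.smul_mem _ hv2 _
    obtain ⟨v, hv, hv1, hv2⟩ := hspan _ hzK
    have : v = z := hinj hv
    subst this
    exact hv2
  have hB : B = ⊤ := by
    rw [eq_top_iff]
    rintro ⟨f, hf⟩ -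
    have hcoef : ∀ n, Polynomial.monomial n (f.coeff n) ∈ F.rees := by
      intro n m
      rw [Polynomial.coeff_monomial]
      split_ifs with h1
      · rw [← h1]; exact hf n
      · exact Ideal.zero_mem _
    have : (⟨f, hf⟩ : F.rees) = ∑ n ∈ f.support, ⟨_, hcoef n⟩ := by
      apply Subtype.ext
      simp only [AddSubmonoidClass.coe_finset_sum]
      exact f.as_sum_support
    rw [this]
    exact sum_mem fun n _ => hhom n _ (hcoef n)
  refine ⟨⟨(S.attach.image fun q => g ⟨q.1, by
    rw [← hS]; exact AddSubmonoid.subset_closure q.2⟩), ?_⟩⟩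
  rw [← hB]
  congr 1
  ext f
  simp only [Finset.coe_image, Set.mem_image, Finset.mem_coe, Finset.mem_attach, true_and,
    Set.mem_ofPred_eq]
  constructor
  · rintro ⟨q, rfl⟩
    exact ⟨⟨q.1, _⟩, q.2, rfl⟩
  · rintro ⟨q, hq, rfl⟩
    exact ⟨⟨q.1, hq⟩, rfl⟩

end Fam

end Pool.Agent.MP_b525bf_ag
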