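import Pool.Agent.Lib.MP_b525bf_ag.FamBasic

/-!
Linear maps and algebra homomorphisms out of the graded algebra of a family, given by homogeneous
data.
-/

namespace Pool.Agent.MP_b525bf_ag

open AddMonoidAlgebra

variable {k K ι : Type} [Field k] [Field K] [Algebra k K] [AddCommGroup ι]

namespace Fam

section Lin

variable (M : Fam k K ι) {A : Type*} [AddCommGroup A] [Module k A]
  (φ : ∀ a, M.s a →ₗ[k] A)

lemma lin_aux (F : M.alg) (S : Finset ι) (hS : F.1.coeff.support ⊆ S) :
    ∑ a ∈ F.1.coeff.support, φ a ⟨F.1.coeff a, F.2 a⟩ = ∑ a ∈ S, φ a ⟨F.1.coeff a, F.2 a⟩ := by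
  refine Finset.sum_subset hS ?_
  intro a _ ha
  have : (⟨F.1.coeff a, F.2 a⟩ : M.s a) = 0 := Subtype.ext (by simpa using ha)
  rw [this, map_zero]

/-- The linear map with prescribed values on homogeneous elements. -/
noncomputable def linHom : M.alg →ₗ[k] A where
  toFun F := ∑ a ∈ F.1.coeff.support, φ a ⟨F.1.coeff a, F.2 a⟩
  map_add' F G := by
    classical
    rw [M.lin_aux φ F (F.1.coeff.support ∪ G.1.coeff.support) Finset.subset_union_left,
      M.lin_aux φ G (F.1.coeff.support ∪ G.1.coeff.support) Finset.subset_union_right,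
      M.lin_aux φ (F + G) (F.1.coeff.support ∪ G.1.coeff.support) ?_, ← Finset.sum_add_distrib]
    · refine Finset.sum_congr rfl fun a _ => ?_
      rw [← map_add]
      rfl
    · exact Finsupp.support_add
  map_smul' c F := by
    classical
    rw [M.lin_aux φ (c • F) F.1.coeff.support ?_, Finset.smul_sum]
    · refine Finset.sum_congr rfl fun a _ => ?_
      rw [RingHom.id_apply, ← map_smul]
      rfl
    · exact Finsupp.support_smul

lemma linHom_el {a : ι} {x : K} (hx : x ∈ M.s a) : M.linHom φ (M.el hx) = φ a ⟨x, hx⟩ := by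
  classical
  change ∑ b ∈ (M.el hx).1.coeff.support, φ b ⟨(M.el hx).1.coeff b, (M.el hx).2 b⟩ = _
  rw [M.lin_aux φ (M.el hx) {a} ?_]
  · rw [Finset.sum_singleton]
    congr 1
    refine Subtype.ext ?_
    simp
  · exact Finsupp.support_single_subset

end Lin

section AlgH

variable (M : Fam k K ι) {A : Type*} [CommRing A] [Algebra k A]
  (φ : ∀ a, M.s a →ₗ[k] A)

/-- The algebra homomorphism with prescribed values on homogeneous elements. -/
noncomputable def liftHom (h1 : φ 0 ⟨1, M.one'⟩ = 1)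
    (hmul : ∀ (a b : ι) (x y : K) (hx : x ∈ M.s a) (hy : y ∈ M.s b),
      φ (a + b) ⟨x * y, M.mul' hx hy⟩ = φ a ⟨x, hx⟩ * φ b ⟨y, hy⟩) : M.alg →ₐ[k] A :=
  AlgHom.ofLinearMap (M.linHom φ)
    (by rw [← M.el_one, linHom_el, h1])
    (by
      intro F G
      induction F using M.alg_induction with
      | h0 => simp
      | hadd F F' hF hF' => rw [add_mul, map_add, hF, hF', map_add, add_mul]
      | hel a x hx =>
        induction G using M.alg_induction with
        | h0 => simp
        | hadd G G' hG hG' => rw [mul_add, map_add, hG, hG', map_add, mul_add]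
        | hel b y hy => rw [el_mul, linHom_el, linHom_el, linHom_el, hmul])

lemma liftHom_el (h1 : φ 0 ⟨1, M.one'⟩ = 1)
    (hmul : ∀ (a b : ι) (x y : K) (hx : x ∈ M.s a) (hy : y ∈ M.s b),
      φ (a + b) ⟨x * y, M.mul' hx hy⟩ = φ a ⟨x, hx⟩ * φ b ⟨y, hy⟩) {a : ι} {x : K}
    (hx : x ∈ M.s a) : M.liftHom φ h1 hmul (M.el hx) = φ a ⟨x, hx⟩ :=
  M.linHom_el φ hx

end AlgH

end Fam

end Pool.Agent.MP_b525bf_ag
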