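import Pool.Agent.Lib.MP_b525bf_ag_helper12.USmooth
import Pool.Agent.Lib.MP_b525bf_ag_helper12.FG

/-!
The universal algebra `U` is isomorphic to the weighted extended Rees algebra; hence the latter is
formally smooth when the graded algebra is formally smooth and finitely generated.
-/

namespace Pool.Agent.MP_b525bf_ag

open Polynomial

variable {k K : Type} [Field k] [Field K] [Algebra k K]

namespace Fam

section Gen

variable {M : Fam k K ℤ} {w : ℕ}

lemma U_induction {p : M.U w → Prop} (hC : ∀ c : k[X], p (algebraMap k[X] (M.U w) c))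
    (hadd : ∀ u v, p u → p v → p (u + v))
    (hmul : ∀ (u : M.U w) (d : ℤ) (x : M.s d), p u → p (u * sym w x)) (u : M.U w) : p u := by
  obtain ⟨q, rfl⟩ : ∃ q : MvPolynomial (Σ d : ℤ, M.s d) k[X],
    Ideal.Quotient.mk (Ideal.span (M.urels w)) q = u := Ideal.Quotient.mk_surjective u
  induction q using MvPolynomial.induction_on with
  | C c => exact hC c
  | add q r hq hr =>
    rw [map_add]
    exact hadd _ _ hq hr
  | mul_X q i hq =>
    obtain ⟨d, x⟩ := i
    rw [map_mul]
    exact hmul _ d x hq

lemma U_surj (hfg : M.alg.FG) : ∃ (r : ℕ) (f : MvPolynomial (Fin r) k[X] →ₐ[k[X]] M.U w),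
    Function.Surjective f := by
  obtain ⟨r, d, x, hx, hgen⟩ := M.exists_generators hfg
  let f : MvPolynomial (Fin r) k[X] →ₐ[k[X]] M.U w :=
    MvPolynomial.aeval fun i => sym w (⟨x i, hx i⟩ : M.s (d i))
  refine ⟨r, f, ?_⟩
  let N : Fam k K ℤ :=
    { s := fun e =>
        { carrier := {y | ∃ h : y ∈ M.s e, sym w (⟨y, h⟩ : M.s e) ∈ f.range}
          add_mem' := by
            rintro y z ⟨hy, hy'⟩ ⟨hz, hz'⟩
            refine ⟨Submodule.add_mem _ hy hz, ?_⟩
            have := sym_add (w := w) (⟨y, hy⟩ : M.s e) ⟨z, hz⟩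
            have h2 : (⟨y, hy⟩ + ⟨z, hz⟩ : M.s e) = ⟨y + z, Submodule.add_mem _ hy hz⟩ := rfl
            rw [← h2, this]
            exact add_mem hy' hz'
          zero_mem' := by
            refine ⟨Submodule.zero_mem _, ?_⟩
            have := sym_smul (w := w) (0 : k) (0 : M.s e)
            rw [zero_smul, C_0, map_zero, zero_mul] at this
            have h2 : (0 : M.s e) = ⟨0, Submodule.zero_mem _⟩ := rfl
            rw [← h2, this]
            exact zero_mem _
          smul_mem' := by
            rintro c y ⟨hy, hy'⟩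
            refine ⟨Submodule.smul_mem _ _ hy, ?_⟩
            have := sym_smul (w := w) c (⟨y, hy⟩ : M.s e)
            have h2 : (c • ⟨y, hy⟩ : M.s e) = ⟨c • y, Submodule.smul_mem _ _ hy⟩ := rfl
            rw [← h2, this]
            exact mul_mem (f.range.algebraMap_mem _) hy' }
      one' := ⟨M.one', by rw [sym_one]; exact one_mem _⟩
      mul' := by
        rintro a b y z ⟨hy, hy'⟩ ⟨hz, hz'⟩
        refine ⟨M.mul' hy hz, ?_⟩
        have := sym_mul (w := w) (⟨y, hy⟩ : M.s a) (⟨z, hz⟩ : M.s b)
        rw [this]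
        exact mul_mem (f.range.algebraMap_mem _) (mul_mem hy' hz') }
  have hMN : M.alg ≤ N.alg := by
    rw [hgen]
    refine Algebra.adjoin_le ?_
    rintro _ ⟨i, rfl⟩
    refine single_mem_alg.2 ⟨hx i, ?_⟩
    exact ⟨MvPolynomial.X i, MvPolynomial.aeval_X _ _⟩
  have hsym : ∀ (e : ℤ) (y : M.s e), sym w y ∈ f.range := by
    intro e y
    have := single_mem_alg.1 (hMN (single_mem_alg.2 y.2))
    exact this.2
  intro u
  change u ∈ f.range
  induction u using U_induction with
  | hC c => exact f.range.algebraMap_mem c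
  | hadd u v hu hv => exact add_mem hu hv
  | hmul u e y hu => exact mul_mem hu (hsym e y)

lemma U_regular [NeZero w] (hfg : M.alg.FG) (hsm : Algebra.FormallySmooth k M.alg) (N : ℕ)
    (u : M.U w) (h : algebraMap k[X] (M.U w) (X ^ N) * u = 0) : u = 0 := by
  obtain ⟨r, f, hf⟩ := U_surj (w := w) hfg
  have := U_formallySmooth (w := w) hsm
  have : Module.Flat k[X] (M.U w) :=
    Algebra.FormallySmooth.flat_of_algHom_of_isNoetherianRing f hf
  have hr : IsSMulRegular (M.U w) ((X : k[X]) ^ N) :=
    Module.Flat.isSMulRegular_of_isRegular (IsRegular.of_ne_zero (pow_ne_zero _ X_ne_zero))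
  apply hr
  change (X : k[X]) ^ N • u = (X : k[X]) ^ N • (0 : M.U w)
  rw [smul_zero, Algebra.smul_def, h]

end Gen

section Arith

variable {w : ℕ} [NeZero w]

lemma carry_int (d e : ℤ) :
    ((carry w (d : ZMod w) (e : ZMod w) : ℕ) : ℤ) = (d % w + e % w) / w := by
  rw [carry, Int.natCast_div, Nat.cast_add, ZMod.val_intCast, ZMod.val_intCast]

lemma carry_mod (d e : ℤ) :
    (d + e) % w + w * (carry w (d : ZMod w) (e : ZMod w) : ℤ) = d % w + e % w := by
  rw [carry_int, Int.add_emod, Int.emod_add_mul_ediv]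

lemma carry_div (d e : ℤ) :
    (d + e) / w = d / w + e / w + (carry w (d : ZMod w) (e : ZMod w) : ℤ) := by
  have hw : (w : ℤ) ≠ 0 := by exact_mod_cast NeZero.ne w
  have h1 := Int.emod_add_mul_ediv (d + e) w
  have h2 := Int.emod_add_mul_ediv d w
  have h3 := Int.emod_add_mul_ediv e w
  have h4 := carry_mod (w := w) d e
  apply mul_left_cancel₀ hw
  linear_combination h1 - h2 - h3 - h4

end Arith

section Rees

variable (M : Fam k K ℤ) (w : ℕ)

/-- The total degree. -/
def tot : ℤ × ℤ →+ ℤ where
  toFun a := a.1 + w * a.2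
  map_zero' := by simp
  map_add' a b := by simp only [Prod.fst_add, Prod.snd_add]; ring

/-- The big bigraded family containing the Rees algebra. -/
abbrev big : Fam k K (ℤ × ℤ) := M.comap (tot w)

lemma tot_div (d : ℤ) : tot w (d % w, d / w) = d := Int.emod_add_mul_ediv d w

lemma mem_big {d : ℤ} {x : K} (hx : x ∈ M.s d) : x ∈ (M.big w).s (d % w, d / w) := by
  rw [comap_s, tot_div]; exact hx

lemma sig_mem : (1 : K) ∈ (M.big w).s (-(w : ℤ), 1) := by
  have : tot w (-(w : ℤ), 1) = 0 := by simp [tot]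
  rw [comap_s, this]; exact M.one'

/-- The parameter of the Rees algebra. -/
noncomputable def sig : (M.big w).alg := (M.big w).el (M.sig_mem w)

/-- The `k[X]`-algebra structure. -/
noncomputable abbrev algP : Algebra k[X] (M.big w).alg := (aeval (M.sig w)).toAlgebra

lemma sig_pow (n : ℕ) : (M.sig w) ^ n = (M.big w).el ((M.big w).pow' (M.sig_mem w) n) :=
  (M.big w).el_pow _ n

/-- The homomorphism from `U` to the big bigraded algebra. -/
noncomputable def ptBig [NeZero w] :
    letI := M.algP w
    M.UPt w (M.big w).alg :=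
  letI := M.algP w
  { h := fun d x => (M.big w).el (M.mem_big w x.2)
    one := by
      rw [← el_one]
      refine el_eq _ _ _ ?_ rfl
      simp
    add := fun d x y => Subtype.ext (by simp)
    smul := fun d c x => by
      have h : algebraMap k[X] (M.big w).alg (C c) = algebraMap k (M.big w).alg c :=
        aeval_C _ _
      rw [h, ← Algebra.smul_def]
      exact Subtype.ext (AddMonoidAlgebra.smul_single _ _ _).symm
    mul := fun d e x y => by
      have h : algebraMap k[X] (M.big w).alg X = M.sig w := aeval_X _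
      rw [h, sig_pow, el_mul, el_mul]
      refine el_eq _ _ _ ?_ (by simp)
      have h1 := carry_mod (w := w) d e
      have h2 := carry_div (w := w) d e
      refine Prod.ext ?_ ?_
      · simp only [Prod.smul_mk, Prod.mk_add_mk, nsmul_eq_mul]
        linear_combination h1
      · simp only [Prod.smul_mk, Prod.mk_add_mk, nsmul_eq_mul]
        linear_combination h2 }

noncomputable instance instAlgebraU' : Algebra k (M.U w) :=
  ((algebraMap k[X] (M.U w)).comp C).toAlgebra

instance instTowerU : IsScalarTower k k[X] (M.U w) :=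
  IsScalarTower.of_algebraMap_eq (fun _ => rfl)

lemma smul_U (c : k) (u : M.U w) : c • u = algebraMap k[X] (M.U w) (C c) * u :=
  Algebra.smul_def c u

/-- The map back to `U` on homogeneous pieces. -/
noncomputable def backPiece (a : ℤ × ℤ) : (M.big w).s a →ₗ[k] M.U w where
  toFun x := algebraMap k[X] (M.U w) (X ^ (((tot w a) % w - a.1) / w).toNat) *
    sym w (⟨x.1, x.2⟩ : M.s (tot w a))
  map_add' x y := by
    rw [← mul_add, ← sym_add]
    rfl
  map_smul' c x := by
    have := sym_smul (w := w) c (⟨x.1, x.2⟩ : M.s (tot w a))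
    rw [RingHom.id_apply, smul_U, ← mul_assoc, mul_comm (algebraMap k[X] (M.U w) (C c)), mul_assoc,
      ← this]
    rfl

/-- The map back to `U`. -/
noncomputable def back : (M.big w).alg →ₗ[k] M.U w := (M.big w).linHom (M.backPiece w)

lemma sym_eq {d e : ℤ} (h : d = e) {x : K} (hx : x ∈ M.s d) (hx' : x ∈ M.s e) :
    sym w (⟨x, hx⟩ : M.s d) = sym w (⟨x, hx'⟩ : M.s e) := by
  subst h; rfl

variable [NeZero w]

/-- The homomorphism from `U` to the big bigraded algebra, as `k`-algebra map. -/
noncomputable def toBig : M.U w →ₐ[k] (M.big w).alg :=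
  letI := M.algP w
  { (M.ptBig w).lift.toRingHom with
    commutes' := fun c => by
      have h : algebraMap k[X] (M.big w).alg (C c) = algebraMap k (M.big w).alg c :=
        aeval_C _ _
      rw [← h]
      exact (M.ptBig w).lift.commutes (C c) }

lemma toBig_sym {d : ℤ} (x : M.s d) : M.toBig w (sym w x) = (M.big w).el (M.mem_big w x.2) := by
  let := M.algP w
  exact (M.ptBig w).lift_sym x

lemma toBig_algebraMap (c : k[X]) : M.toBig w (algebraMap k[X] (M.U w) c) = aeval (M.sig w) c := by
  let := M.algP w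
  exact (M.ptBig w).lift.commutes c

lemma back_toBig (j : ℕ) {d : ℤ} (x : M.s d) :
    M.back w (M.toBig w (algebraMap k[X] (M.U w) (X ^ j) * sym w x)) =
      algebraMap k[X] (M.U w) (X ^ j) * sym w x := by
  have hw : (w : ℤ) ≠ 0 := by exact_mod_cast NeZero.ne w
  have h1 : M.toBig w (algebraMap k[X] (M.U w) (X ^ j) * sym w x) =
      (M.big w).el ((M.big w).mul' ((M.big w).pow' (M.sig_mem w) j) (M.mem_big w x.2)) := by
    rw [map_mul, toBig_sym, toBig_algebraMap, map_pow, aeval_X, sig_pow, el_mul]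
  rw [h1, back, linHom_el]
  have ht : tot w (j • ((-(w : ℤ), 1) : ℤ × ℤ) + (d % w, d / w)) = d := by
    rw [map_add, map_nsmul, tot_div]
    have : tot w (-(w : ℤ), 1) = 0 := by simp [tot]
    rw [this, smul_zero, zero_add]
  have hj : (((tot w (j • ((-(w : ℤ), 1) : ℤ × ℤ) + (d % w, d / w))) % w -
      (j • ((-(w : ℤ), 1) : ℤ × ℤ) + (d % w, d / w)).1) / w).toNat = j := by
    rw [ht]
    have : (d % w - (j • ((-(w : ℤ), 1) : ℤ × ℤ) + (d % w, d / w)).1) = j * w := by
      simp only [Prod.smul_mk, Prod.mk_add_mk, nsmul_eq_mul]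
      ring
    rw [this, Int.mul_ediv_cancel _ hw, Int.toNat_natCast]
  change algebraMap k[X] (M.U w) (X ^ (((tot w (j • ((-(w : ℤ), 1) : ℤ × ℤ) +
    (d % w, d / w))) % w - (j • ((-(w : ℤ), 1) : ℤ × ℤ) + (d % w, d / w)).1) / w).toNat) *
    sym w _ = _
  rw [hj]
  congr 1
  have hx : (1 : K) ^ j * x.1 = x.1 := by simp
  have key : ∀ (e : ℤ) (_ : e = d) (z : K) (_ : z = x.1) (hz : z ∈ M.s e),
      sym w (⟨z, hz⟩ : M.s e) = sym w x := by
    rintro e rfl z rfl hz
    rfl
  exact key _ ht _ hx _

/-- The span of the elements `X ^ j [d, x]`. -/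
noncomputable def Om : Submodule k (M.U w) :=
  Submodule.span k {u | ∃ (j : ℕ) (d : ℤ) (x : M.s d), u = algebraMap k[X] (M.U w) (X ^ j) * sym w x}

lemma back_Om {u : M.U w} (hu : u ∈ M.Om w) : M.back w (M.toBig w u) = u := by
  induction hu using Submodule.span_induction with
  | mem u hu =>
    obtain ⟨j, d, x, rfl⟩ := hu
    exact M.back_toBig w j x
  | zero => simp
  | add u v _ _ hu hv => rw [map_add, map_add, hu, hv]
  | smul c u _ hu => rw [map_smul, map_smul, hu]

lemma Om_X {u : M.U w} (hu : u ∈ M.Om w) (n : ℕ) :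
    algebraMap k[X] (M.U w) (X ^ n) * u ∈ M.Om w := by
  induction hu using Submodule.span_induction with
  | mem u hu =>
    obtain ⟨j, d, x, rfl⟩ := hu
    refine Submodule.subset_span ⟨n + j, d, x, ?_⟩
    rw [pow_add, map_mul, mul_assoc]
  | zero => simp
  | add u v _ _ hu hv => rw [mul_add]; exact Submodule.add_mem _ hu hv
  | smul c u _ hu => rw [mul_smul_comm]; exact Submodule.smul_mem _ _ hu

lemma carry_le (i j : ZMod w) : carry w i j ≤ 1 := by
  have h1 := ZMod.val_lt i
  have h2 := ZMod.val_lt j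
  have : (i.val + j.val) / w < 2 := by
    rw [Nat.div_lt_iff_lt_mul (NeZero.pos w)]
    omega
  unfold carry
  omega

lemma Om_mul_sym {u : M.U w} (hu : u ∈ M.Om w) {e : ℤ} (y : M.s e) :
    algebraMap k[X] (M.U w) X * (u * sym w y) ∈ M.Om w := by
  induction hu using Submodule.span_induction with
  | mem u hu =>
    obtain ⟨j, d, x, rfl⟩ := hu
    have h := sym_mul (w := w) x y
    have hc := carry_le w (d : ZMod w) (e : ZMod w)
    refine Submodule.subset_span ⟨j + (1 - carry w (d : ZMod w) (e : ZMod w)), d + e,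
      ⟨x.1 * y.1, M.mul' x.2 y.2⟩, ?_⟩
    rw [h, pow_add, map_mul, mul_assoc, mul_assoc, ← mul_assoc (algebraMap k[X] (M.U w)
      (X ^ (1 - carry w (d : ZMod w) (e : ZMod w)))), ← map_mul, ← pow_add, Nat.sub_add_cancel hc,
      pow_one]
    ring
  | zero => simp
  | add u v _ _ hu hv => rw [add_mul, mul_add]; exact Submodule.add_mem _ hu hv
  | smul c u _ hu =>
    rw [smul_mul_assoc, mul_smul_comm]; exact Submodule.smul_mem _ _ hu

lemma exists_Om (u : M.U w) : ∃ N : ℕ, algebraMap k[X] (M.U w) (X ^ N) * u ∈ M.Om w := by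
  induction u using U_induction with
  | hC c =>
    refine ⟨0, ?_⟩
    rw [pow_zero, map_one, one_mul]
    induction c using Polynomial.induction_on' with
    | add p q hp hq => rw [map_add]; exact Submodule.add_mem _ hp hq
    | monomial n a =>
      rw [← C_mul_X_pow_eq_monomial, map_mul, ← smul_U]
      refine Submodule.smul_mem _ _ (Submodule.subset_span ⟨n, 0, ⟨1, M.one'⟩, ?_⟩)
      rw [sym_one, mul_one]
  | hadd u v hu hv =>
    obtain ⟨N, hN⟩ := hu
    obtain ⟨N', hN'⟩ := hv
    refine ⟨N + N', ?_⟩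
    have h1 := M.Om_X w hN N'
    have h2 := M.Om_X w hN' N
    have e : algebraMap k[X] (M.U w) (X ^ (N + N')) * (u + v) =
        algebraMap k[X] (M.U w) (X ^ N') * (algebraMap k[X] (M.U w) (X ^ N) * u) +
        algebraMap k[X] (M.U w) (X ^ N) * (algebraMap k[X] (M.U w) (X ^ N') * v) := by
      rw [pow_add, map_mul]; ring
    rw [e]
    exact Submodule.add_mem _ h1 h2
  | hmul u d x hu =>
    obtain ⟨N, hN⟩ := hu
    refine ⟨N + 1, ?_⟩
    have h := M.Om_mul_sym w hN x
    have e : algebraMap k[X] (M.U w) (X ^ (N + 1)) * (u * sym w x) =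
        algebraMap k[X] (M.U w) X * (algebraMap k[X] (M.U w) (X ^ N) * u * sym w x) := by
      rw [pow_succ, map_mul]; ring
    rw [e]
    exact h

lemma toBig_injective (hfg : M.alg.FG) (hsm : Algebra.FormallySmooth k M.alg) :
    Function.Injective (M.toBig w) := by
  rw [injective_iff_map_eq_zero]
  intro u hu
  obtain ⟨N, hN⟩ := M.exists_Om w u
  refine U_regular hfg hsm N u ?_
  rw [← M.back_Om w hN, map_mul, hu, mul_zero, map_zero]

lemma range_toBig :
    ((M.big w).alg.val.comp (M.toBig w)).range = Algebra.adjoin k (M.wgens w) := by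
  apply le_antisymm
  · rintro _ ⟨u, rfl⟩
    change (M.toBig w u : AddMonoidAlgebra K (ℤ × ℤ)) ∈ Algebra.adjoin k (M.wgens w)
    induction u using U_induction with
    | hC c =>
      rw [toBig_algebraMap]
      induction c using Polynomial.induction_on' with
      | add p q hp hq => rw [map_add]; exact add_mem hp hq
      | monomial n a =>
        rw [← C_mul_X_pow_eq_monomial, map_mul, map_pow, aeval_C, aeval_X]
        have hs : (M.sig w : AddMonoidAlgebra K (ℤ × ℤ)) ∈ Algebra.adjoin k (M.wgens w) :=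
          Algebra.subset_adjoin (Or.inr rfl)
        have ha : ((algebraMap k (M.big w).alg a : (M.big w).alg) : AddMonoidAlgebra K (ℤ × ℤ)) ∈
            Algebra.adjoin k (M.wgens w) := Subalgebra.algebraMap_mem _ a
        exact mul_mem ha (pow_mem hs n)
    | hadd u v hu hv => rw [map_add]; exact add_mem hu hv
    | hmul u d x hu =>
      rw [map_mul, toBig_sym]
      refine mul_mem hu (Algebra.subset_adjoin (Or.inl ⟨d, x.1, x.2, rfl⟩))
  · refine Algebra.adjoin_le ?_
    rintro F (⟨d, x, hx, rfl⟩ | rfl)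
    · refine ⟨sym w (⟨x, hx⟩ : M.s d), ?_⟩
      change (M.toBig w (sym w (⟨x, hx⟩ : M.s d)) : AddMonoidAlgebra K (ℤ × ℤ)) = _
      rw [toBig_sym]
      rfl
    · refine ⟨algebraMap k[X] (M.U w) X, ?_⟩
      change (M.toBig w (algebraMap k[X] (M.U w) X) : AddMonoidAlgebra K (ℤ × ℤ)) = _
      rw [toBig_algebraMap, aeval_X]
      rfl

end Rees

/-- Task E: the weighted extended Rees algebra is formally smooth. -/
theorem formallySmooth_wrees (M : Fam k K ℤ) (w : ℕ) (hw : 0 < w) (hfg : M.alg.FG)
    (hsm : Algebra.FormallySmooth k M.alg) : Algebra.FormallySmooth k (M.wrees w).alg := by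
  have : NeZero w := ⟨hw.ne'⟩
  have h1 := U_formallySmooth (w := w) hsm
  have h2 : Algebra.FormallySmooth k (M.U w) := Algebra.FormallySmooth.comp k k[X] (M.U w)
  have hinj : Function.Injective ((M.big w).alg.val.comp (M.toBig w)) :=
    Subtype.val_injective.comp (M.toBig_injective w hfg hsm)
  have he : ((M.big w).alg.val.comp (M.toBig w)).range = (M.wrees w).alg := by
    rw [range_toBig, wrees, ofSub_adjoin_alg]
    rintro F (⟨d, x, hx, rfl⟩ | rfl)
    · exact ⟨_, _, rfl⟩
    · exact ⟨_, _, rfl⟩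
  exact Algebra.FormallySmooth.of_equiv
    ((AlgEquiv.ofInjective _ hinj).trans (Subalgebra.equivOfEq _ _ he))

end Fam

end Pool.Agent.MP_b525bf_ag
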