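import Pool.Agent.Lib.MP_b525bf_ag_helper12.Lift

/-!
The universal algebra carrying a twisted copy of a graded family, and its formal smoothness.
-/

namespace Pool.Agent.MP_b525bf_ag

open Polynomial

variable {k K : Type} [Field k] [Field K] [Algebra k K]

namespace Fam

/-- The carry in the addition of residues modulo `w`. -/
def carry (w : ℕ) (i j : ZMod w) : ℕ := (i.val + j.val) / w

section Root

variable {D : Type*} [CommRing D] (w : ℕ) [NeZero w] (s : D)

/-- The polynomial `X ^ w - s`. -/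
noncomputable abbrev rpoly : D[X] := X ^ w - C s

lemma rpoly_monic : (rpoly w s).Monic := monic_X_pow_sub_C s (NeZero.ne w)

lemma root_pow_w : (AdjoinRoot.root (rpoly w s)) ^ w = algebraMap D _ s := by
  have h := AdjoinRoot.mk_self (f := rpoly w s)
  rw [rpoly, map_sub, map_pow, AdjoinRoot.mk_X, AdjoinRoot.mk_C, sub_eq_zero] at h
  exact h

lemma root_pow (n : ℕ) : (AdjoinRoot.root (rpoly w s)) ^ n =
    algebraMap D _ (s ^ (n / w)) * (AdjoinRoot.root (rpoly w s)) ^ (n % w) := by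
  conv_lhs => rw [← Nat.div_add_mod n w, pow_add, pow_mul, root_pow_w]
  rw [map_pow]

/-- The coordinates in the algebra `D[X] / (X ^ w - s)`, indexed by residues. -/
noncomputable def coord (i : ZMod w) : AdjoinRoot (rpoly w s) →ₗ[D] D :=
  (Polynomial.lcoeff D i.val).comp (AdjoinRoot.modByMonicHom (rpoly_monic w s))

lemma coord_root_pow_lt (i : ZMod w) (n : ℕ) (hn : n < w) :
    coord w s i ((AdjoinRoot.root (rpoly w s)) ^ n) = if i.val = n then 1 else 0 := by
  rcases subsingleton_or_nontrivial D with h | h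
  · exact Subsingleton.elim _ _
  change (AdjoinRoot.modByMonicHom (rpoly_monic w s) _).coeff i.val = _
  rw [← AdjoinRoot.mk_X, ← map_pow, AdjoinRoot.modByMonicHom_mk,
    (Polynomial.modByMonic_eq_self_iff (rpoly_monic w s)).2, Polynomial.coeff_X_pow]
  rw [Polynomial.degree_X_pow, rpoly, Polynomial.degree_X_pow_sub_C (NeZero.pos w)]
  exact_mod_cast hn

lemma coord_root_pow (i : ZMod w) (n : ℕ) :
    coord w s i ((AdjoinRoot.root (rpoly w s)) ^ n) = if (n : ZMod w) = i then s ^ (n / w) else 0 := by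
  rw [root_pow, ← Algebra.smul_def, map_smul, coord_root_pow_lt _ _ _ _ (Nat.mod_lt _ (NeZero.pos w)),
    smul_eq_mul, mul_ite, mul_one, mul_zero]
  have : (i.val = n % w) ↔ ((n : ZMod w) = i) := by
    rw [← ZMod.val_natCast]
    constructor
    · intro h; exact (ZMod.val_injective w h).symm
    · intro h; rw [h]
  simp only [this]

lemma eq_sum_coord (a : AdjoinRoot (rpoly w s)) :
    a = ∑ i : ZMod w, (coord w s i a) • (AdjoinRoot.root (rpoly w s)) ^ i.val := by
  obtain ⟨p, rfl⟩ := AdjoinRoot.mk_surjective a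
  induction p using Polynomial.induction_on' with
  | add p q hp hq =>
    rw [map_add]
    conv_lhs => rw [hp, hq]
    rw [← Finset.sum_add_distrib]
    refine Finset.sum_congr rfl fun i _ => ?_
    rw [map_add, add_smul]
  | monomial n c =>
    have h : AdjoinRoot.mk (rpoly w s) (monomial n c) = c • (AdjoinRoot.root (rpoly w s)) ^ n := by
      rw [← Polynomial.C_mul_X_pow_eq_monomial, map_mul, map_pow, AdjoinRoot.mk_X, AdjoinRoot.mk_C,
        Algebra.smul_def]
      rfl
    rw [h]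
    simp only [map_smul, coord_root_pow, smul_eq_mul, mul_ite, mul_zero, ite_smul, zero_smul]
    rw [Finset.sum_ite_eq]
    simp only [Finset.mem_univ, if_true]
    rw [mul_smul, ZMod.val_natCast, Algebra.smul_def (s ^ (n / w)), ← root_pow]

lemma coord_mul (l : ZMod w) (a b : AdjoinRoot (rpoly w s)) :
    coord w s l (a * b) = ∑ i : ZMod w, ∑ j : ZMod w,
      (coord w s i a * coord w s j b) * (if i + j = l then s ^ carry w i j else 0) := by
  conv_lhs => rw [eq_sum_coord w s a, eq_sum_coord w s b]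
  rw [Finset.sum_mul_sum, map_sum]
  refine Finset.sum_congr rfl fun i _ => ?_
  rw [map_sum]
  refine Finset.sum_congr rfl fun j _ => ?_
  rw [smul_mul_smul_comm, map_smul, ← pow_add, coord_root_pow, smul_eq_mul]
  congr 1
  simp [carry]

lemma coord_mem {I : Ideal D} {a : AdjoinRoot (rpoly w s)}
    (ha : a ∈ I.map (algebraMap D (AdjoinRoot (rpoly w s)))) (i : ZMod w) :
    coord w s i a ∈ I := by
  have h : a ∈ (I • ⊤ : Submodule D (AdjoinRoot (rpoly w s))) := by
    rw [Ideal.smul_top_eq_map]; exact ha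
  refine Submodule.smul_induction_on h ?_ ?_
  · intro r hr n _
    rw [map_smul, smul_eq_mul]
    exact I.mul_mem_right _ hr
  · intro x y hx hy
    rw [map_add]; exact I.add_mem hx hy

end Root

section UDef

variable (M : Fam k K ℤ) (w : ℕ)

/-- The relations between the universal homogeneous symbols `[d, x]`. -/
def urels : Set (MvPolynomial (Σ d : ℤ, M.s d) k[X]) :=
  {f | f = MvPolynomial.X ⟨0, ⟨1, M.one'⟩⟩ - 1} ∪
  ({f | ∃ (d : ℤ) (x y : M.s d),
    f = MvPolynomial.X ⟨d, x + y⟩ - (MvPolynomial.X ⟨d, x⟩ + MvPolynomial.X ⟨d, y⟩)} ∪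
  ({f | ∃ (d : ℤ) (c : k) (x : M.s d),
    f = MvPolynomial.X ⟨d, c • x⟩ - MvPolynomial.C (C c) * MvPolynomial.X ⟨d, x⟩} ∪
  {f | ∃ (d e : ℤ) (x : M.s d) (y : M.s e),
    f = MvPolynomial.X ⟨d + e, ⟨x.1 * y.1, M.mul' x.2 y.2⟩⟩ -
      MvPolynomial.C ((X : k[X]) ^ carry w (d : ZMod w) (e : ZMod w)) *
        (MvPolynomial.X ⟨d, x⟩ * MvPolynomial.X ⟨e, y⟩)}))

/-- The universal `k[X]`-algebra with a twisted copy of the family `M`. -/
def U : Type := MvPolynomial (Σ d : ℤ, M.s d) k[X] ⧸ Ideal.span (M.urels w)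

noncomputable instance instCommRingU : CommRing (M.U w) :=
  inferInstanceAs (CommRing (MvPolynomial (Σ d : ℤ, M.s d) k[X] ⧸ Ideal.span (M.urels w)))

noncomputable instance instAlgebraU : Algebra k[X] (M.U w) :=
  inferInstanceAs (Algebra k[X] (MvPolynomial (Σ d : ℤ, M.s d) k[X] ⧸ Ideal.span (M.urels w)))

variable {M} in
/-- The universal homogeneous symbol `[d, x]`. -/
noncomputable def sym {d : ℤ} (x : M.s d) : M.U w :=
  Ideal.Quotient.mk _ (MvPolynomial.X ⟨d, x⟩)

variable {M} in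
lemma sym_one : (sym w (⟨1, M.one'⟩ : M.s 0)) = 1 := by
  have : Ideal.Quotient.mk (Ideal.span (M.urels w)) (MvPolynomial.X ⟨0, ⟨1, M.one'⟩⟩ - 1) = 0 :=
    Ideal.Quotient.eq_zero_iff_mem.2 (Ideal.subset_span (Or.inl rfl))
  rw [map_sub, sub_eq_zero, map_one] at this
  exact this

variable {M} in
lemma sym_add {d : ℤ} (x y : M.s d) : sym w (x + y) = sym w x + sym w y := by
  have : Ideal.Quotient.mk (Ideal.span (M.urels w)) (MvPolynomial.X ⟨d, x + y⟩ -
      (MvPolynomial.X ⟨d, x⟩ + MvPolynomial.X ⟨d, y⟩)) = 0 :=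
    Ideal.Quotient.eq_zero_iff_mem.2 (Ideal.subset_span (Or.inr (Or.inl ⟨d, x, y, rfl⟩)))
  rw [map_sub, sub_eq_zero, map_add] at this
  exact this

variable {M} in
lemma sym_smul {d : ℤ} (c : k) (x : M.s d) :
    sym w (c • x) = algebraMap k[X] (M.U w) (C c) * sym w x := by
  have : Ideal.Quotient.mk (Ideal.span (M.urels w)) (MvPolynomial.X ⟨d, c • x⟩ -
      MvPolynomial.C (C c) * MvPolynomial.X ⟨d, x⟩) = 0 :=
    Ideal.Quotient.eq_zero_iff_mem.2
      (Ideal.subset_span (Or.inr (Or.inr (Or.inl ⟨d, c, x, rfl⟩))))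
  rw [map_sub, sub_eq_zero, map_mul] at this
  exact this

variable {M} in
lemma sym_mul {d e : ℤ} (x : M.s d) (y : M.s e) :
    sym w (⟨x.1 * y.1, M.mul' x.2 y.2⟩ : M.s (d + e)) =
      algebraMap k[X] (M.U w) (X ^ carry w (d : ZMod w) (e : ZMod w)) * (sym w x * sym w y) := by
  have : Ideal.Quotient.mk (Ideal.span (M.urels w))
      (MvPolynomial.X ⟨d + e, ⟨x.1 * y.1, M.mul' x.2 y.2⟩⟩ -
      MvPolynomial.C ((X : k[X]) ^ carry w (d : ZMod w) (e : ZMod w)) *
        (MvPolynomial.X ⟨d, x⟩ * MvPolynomial.X ⟨e, y⟩)) = 0 :=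
    Ideal.Quotient.eq_zero_iff_mem.2
      (Ideal.subset_span (Or.inr (Or.inr (Or.inr ⟨d, e, x, y, rfl⟩))))
  rw [map_sub, sub_eq_zero, map_mul, map_mul] at this
  exact this

/-- The data defining a homomorphism out of `U`. -/
structure UPt (D : Type*) [CommRing D] [Algebra k[X] D] where
  h : ∀ d : ℤ, M.s d → D
  one : h 0 ⟨1, M.one'⟩ = 1
  add : ∀ (d : ℤ) (x y : M.s d), h d (x + y) = h d x + h d y
  smul : ∀ (d : ℤ) (c : k) (x : M.s d), h d (c • x) = algebraMap k[X] D (C c) * h d x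
  mul : ∀ (d e : ℤ) (x : M.s d) (y : M.s e), h (d + e) ⟨x.1 * y.1, M.mul' x.2 y.2⟩ =
    algebraMap k[X] D X ^ carry w (d : ZMod w) (e : ZMod w) * (h d x * h e y)

variable {M w}

/-- The homomorphism out of `U` given by a point. -/
noncomputable def UPt.lift {D : Type*} [CommRing D] [Algebra k[X] D] (p : M.UPt w D) :
    M.U w →ₐ[k[X]] D :=
  Ideal.Quotient.liftₐ _ (MvPolynomial.aeval fun i => p.h i.1 i.2) (by
    intro a ha
    have h : Ideal.span (M.urels w) ≤
        RingHom.ker (MvPolynomial.aeval (R := k[X]) fun i : (Σ d : ℤ, M.s d) => p.h i.1 i.2) := by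
      rw [Ideal.span_le]
      rintro f (rfl | ⟨d, x, y, rfl⟩ | ⟨d, c, x, rfl⟩ | ⟨d, e, x, y, rfl⟩)
      · simp [p.one, RingHom.mem_ker]
      · simp [p.add, RingHom.mem_ker]
      · simp [p.smul, RingHom.mem_ker]
      · simp [p.mul, RingHom.mem_ker]
    exact h ha)

lemma UPt.lift_sym {D : Type*} [CommRing D] [Algebra k[X] D] (p : M.UPt w D) {d : ℤ}
    (x : M.s d) : p.lift (sym w x) = p.h d x := by
  change MvPolynomial.aeval (fun i : (Σ d : ℤ, M.s d) => p.h i.1 i.2) (MvPolynomial.X ⟨d, x⟩) = _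
  simp

lemma U_hom_ext {D : Type*} [CommRing D] [Algebra k[X] D] {f g : M.U w →ₐ[k[X]] D}
    (h : ∀ (d : ℤ) (x : M.s d), f (sym w x) = g (sym w x)) : f = g := by
  refine Ideal.Quotient.algHom_ext _ (MvPolynomial.algHom_ext ?_)
  rintro ⟨d, x⟩
  exact h d x

end UDef

end Fam

end Pool.Agent.MP_b525bf_ag
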