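import Pool.Agent.Lib.MP_b525bf_ag_helper12.UAlg

/-!
Formal smoothness of the universal algebra `U` over `k[X]`.
-/

namespace Pool.Agent.MP_b525bf_ag

open Polynomial

variable {k K : Type} [Field k] [Field K] [Algebra k K]

namespace Fam

variable {M : Fam k K ℤ} {w : ℕ} [NeZero w]

lemma carry_root {D : Type*} [CommRing D] (s : D) (i j : ZMod w) :
    (AdjoinRoot.root (rpoly w s)) ^ i.val * (AdjoinRoot.root (rpoly w s)) ^ j.val =
      algebraMap D _ (s ^ carry w i j) * (AdjoinRoot.root (rpoly w s)) ^ (i + j).val := by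
  rw [← pow_add, root_pow, ZMod.val_add]
  rfl

lemma exists_lift_aux {D : Type} [CommRing D] [Algebra k[X] D] [Algebra k D]
    [IsScalarTower k k[X] D] (I : Ideal D) (hI : I ^ 2 = ⊥) (f : M.U w →ₐ[k[X]] D ⧸ I)
    (hsm : Algebra.FormallySmooth k M.alg) (s : D) (hs : s = algebraMap k[X] D X) :
    ∃ H : M.alg →ₐ[k] AdjoinRoot (rpoly w s),
      ∀ (d : ℤ) (x : M.s d) (u : D), Ideal.Quotient.mk I u = f (sym w x) →
        H (M.el x.2) - algebraMap D _ u *
          AdjoinRoot.root (rpoly w s) ^ (d : ZMod w).val ∈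
            I.map (algebraMap D (AdjoinRoot (rpoly w s))) := by
  set J : Ideal (AdjoinRoot (rpoly w s)) := I.map (algebraMap D (AdjoinRoot (rpoly w s))) with hJ
  have hJ2 : J ^ 2 = ⊥ := by rw [hJ, ← Ideal.map_pow, hI, Ideal.map_bot]
  let j : D ⧸ I →+* AdjoinRoot (rpoly w s) ⧸ J :=
    Ideal.quotientMap J (algebraMap D (AdjoinRoot (rpoly w s))) Ideal.le_comap_map
  have hj : ∀ u : D, j (Ideal.Quotient.mk I u) = Ideal.Quotient.mk J (algebraMap D _ u) :=
    fun u => Ideal.quotientMap_mk
  have hjs : j (algebraMap k[X] (D ⧸ I) X) = Ideal.Quotient.mk J (algebraMap D _ s) := by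
    have h0 : algebraMap k[X] (D ⧸ I) X = Ideal.Quotient.mk I (algebraMap k[X] D X) := rfl
    rw [h0, ← hs, hj]
  have hjc : ∀ c : k, j (algebraMap k[X] (D ⧸ I) (C c)) =
      algebraMap k (AdjoinRoot (rpoly w s) ⧸ J) c := by
    intro c
    have h1 : algebraMap k[X] (D ⧸ I) (C c) = Ideal.Quotient.mk I (algebraMap k D c) := by
      rw [IsScalarTower.algebraMap_apply k k[X] D]
      rfl
    rw [h1, hj]
    rfl
  let t : AdjoinRoot (rpoly w s) ⧸ J := Ideal.Quotient.mk J (AdjoinRoot.root (rpoly w s))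
  let φ : ∀ d, M.s d →ₗ[k] AdjoinRoot (rpoly w s) ⧸ J := fun d =>
    { toFun := fun x => j (f (sym w x)) * t ^ (d : ZMod w).val
      map_add' := fun x y => by rw [sym_add, map_add, map_add, add_mul]
      map_smul' := fun c x => by
        rw [sym_smul, map_mul, map_mul, AlgHom.commutes, hjc, RingHom.id_apply, Algebra.smul_def,
          mul_assoc] }
  have h1 : φ 0 ⟨1, M.one'⟩ = 1 := by
    change j (f (sym w ⟨1, M.one'⟩)) * t ^ ((0 : ℤ) : ZMod w).val = 1
    rw [sym_one]
    simp
  have ht : ∀ i l : ZMod w, t ^ i.val * t ^ l.val =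
      (Ideal.Quotient.mk J (algebraMap D _ s)) ^ carry w i l * t ^ (i + l).val := by
    intro i l
    have := congrArg (Ideal.Quotient.mk J) (carry_root s i l)
    simpa only [map_mul, map_pow] using this
  have hmul : ∀ (a b : ℤ) (x y : K) (hx : x ∈ M.s a) (hy : y ∈ M.s b),
      φ (a + b) ⟨x * y, M.mul' hx hy⟩ = φ a ⟨x, hx⟩ * φ b ⟨y, hy⟩ := by
    intro a b x y hx hy
    change j (f (sym w (⟨(⟨x, hx⟩ : M.s a).1 * (⟨y, hy⟩ : M.s b).1, M.mul' hx hy⟩ : M.s (a + b)))) *
      t ^ ((a + b : ℤ) : ZMod w).val = (j (f (sym w ⟨x, hx⟩)) * t ^ (a : ZMod w).val) *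
        (j (f (sym w ⟨y, hy⟩)) * t ^ (b : ZMod w).val)
    rw [sym_mul, map_mul, map_mul, AlgHom.commutes, map_pow, map_pow, hjs, Int.cast_add,
      mul_mul_mul_comm, ht, map_mul, map_mul]
    ring
  let Hbar : M.alg →ₐ[k] AdjoinRoot (rpoly w s) ⧸ J := M.liftHom φ h1 hmul
  obtain ⟨H, hH⟩ := Algebra.FormallySmooth.exists_lift J ⟨2, hJ2⟩ Hbar
  refine ⟨H, ?_⟩
  intro d x u hu
  have h2 : Ideal.Quotient.mk J (H (M.el x.2)) = Hbar (M.el x.2) := by
    rw [← hH]; rfl
  rw [← Ideal.Quotient.eq_zero_iff_mem, map_sub, h2, M.liftHom_el φ h1 hmul]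
  change j (f (sym w x)) * t ^ (d : ZMod w).val - _ = 0
  rw [← hu, hj, map_mul, map_pow, sub_self]

theorem U_formallySmooth (hsm : Algebra.FormallySmooth k M.alg) :
    Algebra.FormallySmooth k[X] (M.U w) := by
  refine Algebra.FormallySmooth.of_comp_surjective ?_
  intro D _ _ I hI f
  let : Algebra k D := ((algebraMap k[X] D).comp C).toAlgebra
  have : IsScalarTower k k[X] D := IsScalarTower.of_algebraMap_eq (fun _ => rfl)
  obtain ⟨s, hs⟩ : ∃ s : D, s = algebraMap k[X] D X := ⟨_, rfl⟩
  obtain ⟨H, hH⟩ := exists_lift_aux I hI f hsm s hs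
  -- coordinates of the lift
  have hco : ∀ (d : ℤ) (x : M.s d) (u : D), Ideal.Quotient.mk I u = f (sym w x) →
      ∀ i : ZMod w, coord w s i (H (M.el x.2)) - (if i = (d : ZMod w) then u else 0) ∈ I := by
    intro d x u hu i
    have h := coord_mem w s (hH d x u hu) i
    rw [map_sub, ← Algebra.smul_def, map_smul, coord_root_pow_lt _ _ _ _ (ZMod.val_lt _),
      smul_eq_mul, mul_ite, mul_one, mul_zero] at h
    simpa only [ZMod.val_injective w |>.eq_iff] using h
  have hco0 : ∀ (d : ℤ) (x : M.s d) (i : ZMod w), i ≠ (d : ZMod w) →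
      coord w s i (H (M.el x.2)) ∈ I := by
    intro d x i hi
    obtain ⟨u, hu⟩ := Ideal.Quotient.mk_surjective (f (sym w x))
    have := hco d x u hu i
    rwa [if_neg hi, sub_zero] at this
  have hII : ∀ a b : D, a ∈ I → b ∈ I → a * b = 0 := by
    intro a b ha hb
    have : a * b ∈ I ^ 2 := by rw [pow_two]; exact Ideal.mul_mem_mul ha hb
    rw [hI] at this
    exact this
  let p : M.UPt w D :=
    { h := fun d x => coord w s (d : ZMod w) (H (M.el x.2))
      one := by
        have : M.el (⟨1, M.one'⟩ : M.s 0).2 = 1 := M.el_one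
        rw [this, map_one]
        have h := coord_root_pow_lt w s ((0 : ℤ) : ZMod w) 0 (NeZero.pos w)
        rw [pow_zero] at h
        rw [h]
        simp
      add := fun d x y => by
        have : M.el (x + y).2 = M.el x.2 + M.el y.2 := Subtype.ext (by simp)
        rw [this, map_add, map_add]
      smul := fun d c x => by
        have : M.el (c • x).2 = c • M.el x.2 :=
          Subtype.ext (AddMonoidAlgebra.smul_single _ _ _).symm
        have h2 : c • H (M.el x.2) = (algebraMap k[X] D (C c)) • H (M.el x.2) := by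
          rw [Algebra.smul_def, Algebra.smul_def]
          rfl
        rw [this, map_smul, h2, map_smul, smul_eq_mul]
      mul := fun d e x y => by
        have : M.el (⟨x.1 * y.1, M.mul' x.2 y.2⟩ : M.s (d + e)).2 = M.el x.2 * M.el y.2 :=
          (M.el_mul x.2 y.2).symm
        rw [this, map_mul, coord_mul, Finset.sum_eq_single (d : ZMod w),
          Finset.sum_eq_single (e : ZMod w), ← hs]
        · rw [if_pos (by push_cast; ring)]
          ring
        · intro j _ hj
          rw [if_neg, mul_zero]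
          intro h
          apply hj
          push_cast at h
          exact add_left_cancel h
        · intro h; exact absurd (Finset.mem_univ _) h
        · intro i _ hi
          refine Finset.sum_eq_zero fun j _ => ?_
          by_cases hj : j = (e : ZMod w)
          · subst hj
            rw [if_neg, mul_zero]
            intro h
            apply hi
            push_cast at h
            exact add_right_cancel h
          · rw [hII _ _ (hco0 d x i hi) (hco0 e y j hj), zero_mul]
        · intro h; exact absurd (Finset.mem_univ _) h }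
  refine ⟨p.lift, ?_⟩
  refine U_hom_ext fun d x => ?_
  obtain ⟨u, hu⟩ := Ideal.Quotient.mk_surjective (f (sym w x))
  have h := hco d x u hu (d : ZMod w)
  rw [if_pos rfl] at h
  rw [← hu, AlgHom.comp_apply, UPt.lift_sym]
  exact Ideal.Quotient.eq.2 h

end Fam

end Pool.Agent.MP_b525bf_ag
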